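import Mathlib

set_option autoImplicit false

open Polynomial Module

namespace Pool.Agent.Lib.CEC001

variable {K : Type*} [Field K]

/-- Multiplication by the variable, as a linear endomorphism of `K[X]`. -/
noncomputable def mX (K : Type*) [Field K] : K[X] →ₗ[K] K[X] := LinearMap.mulLeft K (X : K[X])

@[simp] lemma mX_apply (p : K[X]) : mX K p = X * p := rfl

lemma mX_injective : Function.Injective (mX K) := by
  intro p q h
  simpa [X_ne_zero] using h

/-- `U + X U`. -/
noncomputable def sh (U : Submodule K K[X]) : Submodule K K[X] := U ⊔ U.map (mX K)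

lemma le_sh (U : Submodule K K[X]) : U ≤ sh U := le_sup_left

lemma map_le_sh (U : Submodule K K[X]) : U.map (mX K) ≤ sh U := le_sup_right

lemma sh_mono {U V : Submodule K K[X]} (h : U ≤ V) : sh U ≤ sh V :=
  sup_le_sup h (Submodule.map_mono h)

lemma sh_le_iff {U E : Submodule K K[X]} :
    sh U ≤ E ↔ ∀ u ∈ U, u ∈ E ∧ X * u ∈ E := by
  constructor
  · intro h u hu
    exact ⟨h (le_sh U hu), h (map_le_sh U ⟨u, hu, rfl⟩)⟩
  · intro h
    refine sup_le (fun u hu => (h u hu).1) ?_
    rintro _ ⟨u, hu, rfl⟩
    exact (h u hu).2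

instance sh_finite (U : Submodule K K[X]) [FiniteDimensional K U] : FiniteDimensional K (sh U) := by
  unfold sh
  infer_instance

/-- `p * (polynomials of degree < d)`. -/
noncomputable def mulP (p : K[X]) (d : ℕ) : Submodule K K[X] :=
  (degreeLT K d).map (LinearMap.mulLeft K p)

lemma mem_mulP {p : K[X]} {d : ℕ} {q : K[X]} :
    q ∈ mulP p d ↔ ∃ r ∈ degreeLT K d, p * r = q := Iff.rfl

instance mulP_finite (p : K[X]) (d : ℕ) : FiniteDimensional K (mulP p d) := by
  unfold mulP
  have : FiniteDimensional K (degreeLT K d) :=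
    Module.Finite.of_surjective ((degreeLTEquiv K d).symm : (Fin d → K) →ₗ[K] degreeLT K d)
      (degreeLTEquiv K d).symm.surjective
  infer_instance

instance degreeLT_finite (d : ℕ) : FiniteDimensional K (degreeLT K d) :=
  Module.Finite.of_surjective ((degreeLTEquiv K d).symm : (Fin d → K) →ₗ[K] degreeLT K d)
      (degreeLTEquiv K d).symm.surjective

lemma finrank_degreeLT (d : ℕ) : finrank K (degreeLT K d) = d := by
  rw [(degreeLTEquiv K d).finrank_eq]
  simp

lemma finrank_mulP {p : K[X]} (hp : p ≠ 0) (d : ℕ) : finrank K (mulP p d) = d := by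
  unfold mulP
  have hinj : Function.Injective (LinearMap.mulLeft K p) := by
    intro a b h
    simpa [hp] using h
  rw [← (Submodule.equivMapOfInjective _ hinj (degreeLT K d)).finrank_eq, finrank_degreeLT]

lemma mulP_mono (p : K[X]) {d e : ℕ} (h : d ≤ e) : mulP p d ≤ mulP p e :=
  Submodule.map_mono (degreeLT_mono h)

lemma X_mul_mem_degreeLT {d : ℕ} {r : K[X]} (h : r ∈ degreeLT K d) : X * r ∈ degreeLT K (d + 1) := by
  rw [mem_degreeLT] at h ⊢
  by_cases hr : r = 0
  · simp [hr]
  · rw [degree_mul, degree_X]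
    rw [degree_eq_natDegree hr] at h ⊢
    have : r.natDegree < d := by exact_mod_cast h
    have h2 : 1 + r.natDegree < d + 1 := by omega
    exact_mod_cast h2

/-- every polynomial of degree `< d+1` with `d ≥ 1` is `a + X b` with `a, b` of degree `< d`. -/
lemma sh_mulP (p : K[X]) {d : ℕ} (hd : 1 ≤ d) : sh (mulP p d) = mulP p (d + 1) := by
  apply le_antisymm
  · rw [sh_le_iff]
    rintro _ ⟨r, hr, rfl⟩
    refine ⟨mulP_mono p (Nat.le_succ d) ⟨r, hr, rfl⟩, ⟨X * r, X_mul_mem_degreeLT hr, ?_⟩⟩
    simp only [LinearMap.mulLeft_apply]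
    ring
  · rintro _ ⟨r, hr, rfl⟩
    have hr' : r ∈ degreeLT K (d + 1) := hr
    have hdec : r = C (r.coeff 0) + X * r.divX := by
      conv_lhs => rw [← divX_mul_X_add r]
      ring
    have h0 : C (r.coeff 0) ∈ degreeLT K d := by
      rw [mem_degreeLT]
      refine lt_of_le_of_lt degree_C_le ?_
      exact_mod_cast hd
    have h1 : r.divX ∈ degreeLT K d := by
      rw [mem_degreeLT, degree_lt_iff_coeff_zero] at *
      intro m hm
      rw [coeff_divX]
      exact hr' _ (by omega)
    have e : (LinearMap.mulLeft K p) r = p * C (r.coeff 0) + X * (p * r.divX) := by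
      simp only [LinearMap.mulLeft_apply]
      conv_lhs => rw [hdec]
      ring
    rw [e]
    refine add_mem ?_ ?_
    · exact le_sh _ ⟨_, h0, rfl⟩
    · exact map_le_sh _ ⟨p * r.divX, ⟨_, h1, rfl⟩, rfl⟩

lemma exists_bound (U : Submodule K K[X]) [FiniteDimensional K U] : ∃ N, U ≤ degreeLT K N := by
  obtain ⟨s, hs⟩ := (Submodule.fg_iff_finiteDimensional U).2 inferInstance
  refine ⟨s.sup natDegree + 1, ?_⟩
  rw [← hs, Submodule.span_le]
  intro q hq
  have h1 : q.natDegree ≤ s.sup natDegree := Finset.le_sup (f := natDegree) hq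
  have : q ∈ degreeLT K (s.sup natDegree + 1) := by
    rw [mem_degreeLT]
    refine lt_of_le_of_lt degree_le_natDegree ?_
    exact_mod_cast Nat.lt_succ_of_le h1
  exact this

/-- a nonzero finite dimensional space is not stable under multiplication by `X`. -/
lemma not_map_le {U : Submodule K K[X]} [FiniteDimensional K U] (hU : U ≠ ⊥) :
    ¬ U.map (mX K) ≤ U := by
  intro h
  obtain ⟨N, hN⟩ := exists_bound U
  obtain ⟨u, hu, hu0⟩ := Submodule.exists_mem_ne_zero_of_ne_bot hU
  have hpow : ∀ i : ℕ, X ^ i * u ∈ U := by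
    intro i
    induction i with
    | zero => simpa using hu
    | succ i ih =>
      have := h ⟨_, ih, rfl⟩
      simp only [mX_apply] at this
      rw [pow_succ', mul_assoc]
      exact this
  have h1 := hN (hpow N)
  rw [mem_degreeLT, degree_mul, degree_X_pow, degree_eq_natDegree hu0] at h1
  have : N + u.natDegree < N := by exact_mod_cast h1
  omega

lemma finrank_lt_sh {U : Submodule K K[X]} [FiniteDimensional K U] (hU : U ≠ ⊥) :
    finrank K U + 1 ≤ finrank K (sh U) := by
  have hlt : U < sh U := by
    refine lt_of_le_of_ne (le_sh U) ?_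
    intro h
    apply not_map_le hU
    conv_rhs => rw [h]
    exact map_le_sh U
  exact Submodule.finrank_lt_finrank_of_lt hlt

/-- `{u ∈ U : X u ∈ U}`. -/
noncomputable def dn (U : Submodule K K[X]) : Submodule K K[X] := U ⊓ U.comap (mX K)

lemma finrank_dn {U : Submodule K K[X]} [FiniteDimensional K U]
    (h : finrank K (sh U) ≤ finrank K U + 1) : finrank K U ≤ finrank K (dn U) + 1 := by
  have h1 := Submodule.finrank_sup_add_finrank_inf_eq U (U.map (mX K))
  have h2 : finrank K (U.map (mX K)) = finrank K U :=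
    (Submodule.equivMapOfInjective _ mX_injective U).finrank_eq.symm
  have h3 : (U ⊓ U.map (mX K) : Submodule K K[X]) = (dn U).map (mX K) := by
    ext q
    constructor
    · rintro ⟨hq, ⟨u, hu, rfl⟩⟩
      exact ⟨u, ⟨hu, hq⟩, rfl⟩
    · rintro ⟨u, ⟨hu, hu2⟩, rfl⟩
      exact ⟨hu2, ⟨u, hu, rfl⟩⟩
  have h4 : finrank K ((dn U).map (mX K)) = finrank K (dn U) :=
    (Submodule.equivMapOfInjective _ mX_injective (dn U)).finrank_eq.symm
  rw [h3, h4, h2] at h1
  have h5 : finrank K (U ⊔ U.map (mX K) : Submodule K K[X]) = finrank K (sh U) := rfl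
  omega

lemma sh_dn_le (U : Submodule K K[X]) : sh (dn U) ≤ U := by
  rw [sh_le_iff]
  rintro u ⟨h1, h2⟩
  exact ⟨h1, h2⟩

/-- If `dim (U + X U) ≤ dim U + 1` then `U = p * (polynomials of degree < dim U)`. -/
theorem exists_mulP : ∀ (d : ℕ) (U : Submodule K K[X]) [FiniteDimensional K U],
    finrank K U = d → U ≠ ⊥ → finrank K (sh U) ≤ finrank K U + 1 →
    ∃ p : K[X], p ≠ 0 ∧ U = mulP p d := by
  intro d
  induction d with
  | zero =>
    intro U _ hd hU _
    exact absurd (Submodule.finrank_eq_zero.1 hd) hU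
  | succ d ih =>
    intro U _ hd hU hsh
    obtain ⟨u, hu, hu0⟩ := Submodule.exists_mem_ne_zero_of_ne_bot hU
    rcases Nat.eq_zero_or_pos d with rfl | hdpos
    · refine ⟨u, hu0, ?_⟩
      have hle : mulP u 1 ≤ U := by
        rintro _ ⟨r, hr, rfl⟩
        have hr' : r ∈ degreeLT K 1 := hr
        rw [mem_degreeLT, degree_lt_iff_coeff_zero] at hr'
        have : r = C (r.coeff 0) := by
          ext i
          rcases i with _ | i
          · simp
          · rw [hr' _ (by omega)]; simp
        rw [this, LinearMap.mulLeft_apply, mul_comm, ← smul_eq_C_mul]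
        exact U.smul_mem _ hu
      exact (Submodule.eq_of_le_of_finrank_eq hle (by rw [finrank_mulP hu0, hd])).symm
    · have hfd : FiniteDimensional K (dn U) :=
        Submodule.finiteDimensional_of_le (inf_le_left : dn U ≤ U)
      have h1 := finrank_dn hsh
      have hne : dn U ≠ U := by
        intro h
        apply not_map_le hU
        rintro _ ⟨v, hv, rfl⟩
        rw [← h] at hv
        exact hv.2
      have hlt : finrank K (dn U) < finrank K U :=
        Submodule.finrank_lt_finrank_of_lt (lt_of_le_of_ne inf_le_left hne)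
      have hdd : finrank K (dn U) = d := by omega
      have hnb : dn U ≠ ⊥ := by
        intro h
        rw [h, finrank_bot] at hdd
        omega
      have hsh2 : finrank K (sh (dn U)) ≤ finrank K (dn U) + 1 := by
        have := Submodule.finrank_mono (sh_dn_le U)
        omega
      obtain ⟨p, hp, hpU⟩ := ih (dn U) hdd hnb hsh2
      refine ⟨p, hp, ?_⟩
      have hle : mulP p (d + 1) ≤ U := by
        rw [← sh_mulP p hdpos, ← hpU]
        exact sh_dn_le U
      exact (Submodule.eq_of_le_of_finrank_eq hle (by rw [finrank_mulP hp, hd])).symm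

/-- iterate of `sh`. -/
noncomputable def shm (m : ℕ) (U : Submodule K K[X]) : Submodule K K[X] := (sh^[m]) U

@[simp] lemma shm_zero (U : Submodule K K[X]) : shm 0 U = U := rfl

lemma shm_succ (m : ℕ) (U : Submodule K K[X]) : shm (m + 1) U = shm m (sh U) := by
  unfold shm
  rw [Function.iterate_succ_apply]

lemma shm_succ' (m : ℕ) (U : Submodule K K[X]) : shm (m + 1) U = sh (shm m U) := by
  unfold shm
  rw [Function.iterate_succ_apply']

lemma shm_finite (m : ℕ) (U : Submodule K K[X]) [FiniteDimensional K U] :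
    FiniteDimensional K (shm m U) := by
  induction m with
  | zero => rw [shm_zero]; infer_instance
  | succ m ih =>
    rw [shm_succ']
    infer_instance

lemma shm_le_iff (m : ℕ) (U E : Submodule K K[X]) :
    shm m U ≤ E ↔ ∀ u ∈ U, ∀ i ≤ m, X ^ i * u ∈ E := by
  induction m generalizing U with
  | zero =>
    constructor
    · intro h u hu i hi
      obtain rfl : i = 0 := by omega
      simpa using h hu
    · intro h u hu
      simpa using h u hu 0 le_rfl
  | succ m ih =>
    rw [shm_succ, ih]
    constructor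
    · intro h u hu i hi
      rcases i with _ | i
      · exact h u (le_sh U hu) 0 (by omega)
      · have := h (X * u) (map_le_sh U ⟨u, hu, rfl⟩) i (by omega)
        rw [pow_succ, mul_assoc]
        exact this
    · intro h v hv i hi
      obtain ⟨a, ha, b, hb, rfl⟩ := Submodule.mem_sup.1 hv
      obtain ⟨b, hb, rfl⟩ := hb
      rw [mul_add]
      refine add_mem (h a ha i (by omega)) ?_
      have := h b hb (i + 1) (by omega)
      rw [pow_succ, mul_assoc] at this
      exact this

lemma finrank_shm {U : Submodule K K[X]} [FiniteDimensional K U] (hU : U ≠ ⊥) (m : ℕ) :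
    finrank K U + m ≤ finrank K (shm m U) := by
  induction m with
  | zero => exact le_rfl
  | succ m ih =>
    have := shm_finite m U
    have hne : shm m U ≠ ⊥ := by
      intro h
      rw [h, finrank_bot] at ih
      have : finrank K U = 0 := by omega
      exact hU (Submodule.finrank_eq_zero.1 this)
    have := finrank_lt_sh hne
    rw [shm_succ']
    omega

lemma shm_mulP (p : K[X]) (m : ℕ) {d : ℕ} (hd : 1 ≤ d) : shm m (mulP p d) = mulP p (d + m) := by
  induction m with
  | zero => simp
  | succ m ih => rw [shm_succ', ih, sh_mulP p (by omega)]; rfl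

theorem exists_mulP_shm {U : Submodule K K[X]} [FiniteDimensional K U] (hU : U ≠ ⊥) {m : ℕ}
    (hm : 1 ≤ m) (h : finrank K (shm m U) ≤ finrank K U + m) :
    ∃ p : K[X], p ≠ 0 ∧ U = mulP p (finrank K U) ∧ shm m U = mulP p (finrank K U + m) := by
  obtain ⟨m, rfl⟩ : ∃ m', m = m' + 1 := ⟨m - 1, by omega⟩
  have hne : sh U ≠ ⊥ := by
    intro h'
    have := le_sh U
    rw [h', le_bot_iff] at this
    exact hU this
  have h1 := finrank_shm hne m
  rw [← shm_succ] at h1
  obtain ⟨p, hp, hpU⟩ := exists_mulP (finrank K U) U rfl hU (by omega)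
  refine ⟨p, hp, hpU, ?_⟩
  have hpos : 1 ≤ finrank K U := by
    rcases Nat.eq_zero_or_pos (finrank K U) with h0 | h0
    · exact absurd (Submodule.finrank_eq_zero.1 h0) hU
    · exact h0
  conv_lhs => rw [hpU]
  exact shm_mulP p (m + 1) hpos

end Pool.Agent.Lib.CEC001
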