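import Pool.Agent.Lib.CEC001.Taylor

set_option autoImplicit false

open Module

namespace Pool.Agent.Lib.CEC001

variable {K : Type*} [Field K]

namespace GenLine

variable (L : GenLine K)

/-- Taylor coefficients along the generic line. -/
noncomputable def tay (i j : ℕ) : MvPolynomial (Fin 4) K →ₗ[K] Polynomial K :=
  L.psi.toLinearMap ∘ₗ ((MvPolynomial.pderiv (R := K) (σ := Fin 4) 2).toLinearMap ^ i) ∘ₗ
    ((MvPolynomial.pderiv (R := K) (σ := Fin 4) 3).toLinearMap ^ j)

lemma tay_apply (i j : ℕ) (p : MvPolynomial (Fin 4) K) : L.tay i j p =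
    L.psi ((MvPolynomial.pderiv 2)^[i] ((MvPolynomial.pderiv 3)^[j] p)) := by
  simp only [tay, LinearMap.comp_apply, Module.End.pow_apply]
  rfl

lemma iterate_mapD (δ : Derivation ℤ K K) (a : Fin 4) (i : ℕ) (p : MvPolynomial (Fin 4) K) :
    (MvPolynomial.pderiv a)^[i] (mapD δ p) = mapD δ ((MvPolynomial.pderiv a)^[i] p) := by
  induction i with
  | zero => rfl
  | succ i ih =>
    rw [Function.iterate_succ_apply', ih, pderiv_mapD, Function.iterate_succ_apply']

lemma iterate_comm (a b : Fin 4) (i : ℕ) (q : MvPolynomial (Fin 4) K) :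
    (MvPolynomial.pderiv a)^[i] (MvPolynomial.pderiv b q) =
      MvPolynomial.pderiv b ((MvPolynomial.pderiv a)^[i] q) := by
  have hc : Function.Commute (fun q : MvPolynomial (Fin 4) K => MvPolynomial.pderiv a q)
      (fun q => MvPolynomial.pderiv b q) := fun q => pderiv_comm' a b q
  exact (hc.iterate_left i) q

lemma tay_succ_left (i j : ℕ) (p : MvPolynomial (Fin 4) K) : L.tay (i + 1) j p =
    L.psi (MvPolynomial.pderiv 2 ((MvPolynomial.pderiv 2)^[i] ((MvPolynomial.pderiv 3)^[j] p))) := by
  rw [tay_apply, Function.iterate_succ_apply']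

lemma tay_succ_right (i j : ℕ) (p : MvPolynomial (Fin 4) K) : L.tay i (j + 1) p =
    L.psi (MvPolynomial.pderiv 3 ((MvPolynomial.pderiv 2)^[i] ((MvPolynomial.pderiv 3)^[j] p))) := by
  rw [tay_apply, Function.iterate_succ_apply', iterate_comm]

lemma tay_mapD0 (i j : ℕ) (p : MvPolynomial (Fin 4) K) :
    L.tay i j (mapD (L.D 0) p) = mapP (L.D 0) (L.tay i j p) - Polynomial.X * L.tay (i + 1) j p := by
  rw [tay_apply, iterate_mapD, iterate_mapD, tay_succ_left, tay_apply, mapP_D0]
  ring

lemma tay_mapD1 (i j : ℕ) (p : MvPolynomial (Fin 4) K) :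
    L.tay i j (mapD (L.D 1) p) = mapP (L.D 1) (L.tay i j p) - L.tay (i + 1) j p := by
  rw [tay_apply, iterate_mapD, iterate_mapD, tay_succ_left, tay_apply, mapP_D1]
  ring

lemma tay_mapD2 (i j : ℕ) (p : MvPolynomial (Fin 4) K) :
    L.tay i j (mapD (L.D 2) p) = mapP (L.D 2) (L.tay i j p) - Polynomial.X * L.tay i (j + 1) p := by
  rw [tay_apply, iterate_mapD, iterate_mapD, tay_succ_right, tay_apply, mapP_D2]
  ring

lemma tay_mapD3 (i j : ℕ) (p : MvPolynomial (Fin 4) K) :
    L.tay i j (mapD (L.D 3) p) = mapP (L.D 3) (L.tay i j p) - L.tay i (j + 1) p := by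
  rw [tay_apply, iterate_mapD, iterate_mapD, tay_succ_right, tay_apply, mapP_D3]
  ring

/-- A space of polynomials stable under the coefficientwise derivations. -/
def Stable (W : Submodule K (MvPolynomial (Fin 4) K)) : Prop :=
  ∀ i, ∀ p ∈ W, mapD (L.D i) p ∈ W

/-- elements of `W` vanishing to order `≥ m` along the generic line. -/
noncomputable def Wf (W : Submodule K (MvPolynomial (Fin 4) K)) (m : ℕ) :
    Submodule K (MvPolynomial (Fin 4) K) where
  carrier := {p | p ∈ W ∧ ∀ i j, i + j < m → L.tay i j p = 0}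
  add_mem' := by
    rintro p q ⟨hp, hp'⟩ ⟨hq, hq'⟩
    exact ⟨W.add_mem hp hq, fun i j h => by rw [map_add, hp' i j h, hq' i j h, add_zero]⟩
  zero_mem' := ⟨W.zero_mem, fun i j _ => map_zero _⟩
  smul_mem' := by
    rintro c p ⟨hp, hp'⟩
    exact ⟨W.smul_mem c hp, fun i j h => by rw [map_smul, hp' i j h, smul_zero]⟩

lemma mem_Wf {W : Submodule K (MvPolynomial (Fin 4) K)} {m : ℕ} {p : MvPolynomial (Fin 4) K} :
    p ∈ L.Wf W m ↔ p ∈ W ∧ ∀ i j, i + j < m → L.tay i j p = 0 := Iff.rfl

lemma Wf_le (W : Submodule K (MvPolynomial (Fin 4) K)) (m : ℕ) : L.Wf W m ≤ W := fun _ h => h.1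

lemma Wf_zero (W : Submodule K (MvPolynomial (Fin 4) K)) : L.Wf W 0 = W := by
  apply le_antisymm (L.Wf_le W 0)
  intro p hp
  exact ⟨hp, fun i j h => by omega⟩

/-- the leading coefficients, multiplied by monomials of the right degree, are restrictions. -/
lemma lead {W : Submodule K (MvPolynomial (Fin 4) K)} (hW : L.Stable W) :
    ∀ (m : ℕ) (p : MvPolynomial (Fin 4) K), p ∈ L.Wf W m → ∀ i j, i + j = m → ∀ r, r ≤ m →
      Polynomial.X ^ r * L.tay i j p ∈ W.map L.psi.toLinearMap := by
  intro m
  induction m with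
  | zero =>
    intro p hp i j hij r hr
    obtain rfl : i = 0 := by omega
    obtain rfl : j = 0 := by omega
    obtain rfl : r = 0 := by omega
    refine ⟨p, hp.1, ?_⟩
    simp [tay_apply]
  | succ m ih =>
    intro p hp i j hij r hr
    -- the four derivatives lie in the previous step
    have m0 : mapD (L.D 0) p ∈ L.Wf W m := by
      refine ⟨hW 0 p hp.1, fun a b hab => ?_⟩
      rw [tay_mapD0, hp.2 a b (by omega), hp.2 (a + 1) b (by omega)]
      simp
    have m1 : mapD (L.D 1) p ∈ L.Wf W m := by
      refine ⟨hW 1 p hp.1, fun a b hab => ?_⟩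
      rw [tay_mapD1, hp.2 a b (by omega), hp.2 (a + 1) b (by omega)]
      simp
    have m2 : mapD (L.D 2) p ∈ L.Wf W m := by
      refine ⟨hW 2 p hp.1, fun a b hab => ?_⟩
      rw [tay_mapD2, hp.2 a b (by omega), hp.2 a (b + 1) (by omega)]
      simp
    have m3 : mapD (L.D 3) p ∈ L.Wf W m := by
      refine ⟨hW 3 p hp.1, fun a b hab => ?_⟩
      rw [tay_mapD3, hp.2 a b (by omega), hp.2 a (b + 1) (by omega)]
      simp
    rcases i with _ | i
    · obtain ⟨j, rfl⟩ : ∃ j', j = j' + 1 := ⟨j - 1, by omega⟩
      by_cases hrm : r ≤ m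
      · have h := ih _ m3 0 j (by omega) r hrm
        rw [tay_mapD3, hp.2 0 j (by omega), map_zero, zero_sub, mul_neg] at h
        simpa using neg_mem h
      · obtain rfl : r = m + 1 := by omega
        have h := ih _ m2 0 j (by omega) m le_rfl
        rw [tay_mapD2, hp.2 0 j (by omega), map_zero, zero_sub, mul_neg, ← mul_assoc, ← pow_succ] at h
        simpa using neg_mem h
    · by_cases hrm : r ≤ m
      · have h := ih _ m1 i j (by omega) r hrm
        rw [tay_mapD1, hp.2 i j (by omega), map_zero, zero_sub, mul_neg] at h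
        simpa using neg_mem h
      · obtain rfl : r = m + 1 := by omega
        have h := ih _ m0 i j (by omega) m le_rfl
        rw [tay_mapD0, hp.2 i j (by omega), map_zero, zero_sub, mul_neg, ← mul_assoc, ← pow_succ] at h
        simpa using neg_mem h

end GenLine

/-- `{u : deg u < d, X^i u ∈ E for i ≤ m}`. -/
noncomputable def Uset (E : Submodule K (Polynomial K)) (d m : ℕ) : Submodule K (Polynomial K) where
  carrier := {u | u ∈ Polynomial.degreeLT K d ∧ ∀ i ≤ m, Polynomial.X ^ i * u ∈ E}
  add_mem' := by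
    rintro p q ⟨hp, hp'⟩ ⟨hq, hq'⟩
    exact ⟨add_mem hp hq, fun i h => by rw [mul_add]; exact add_mem (hp' i h) (hq' i h)⟩
  zero_mem' := ⟨zero_mem _, fun i _ => by rw [mul_zero]; exact zero_mem _⟩
  smul_mem' := by
    rintro c p ⟨hp, hp'⟩
    exact ⟨Submodule.smul_mem _ c hp, fun i h => by
      rw [mul_smul_comm]; exact Submodule.smul_mem _ c (hp' i h)⟩

lemma mem_Uset {E : Submodule K (Polynomial K)} {d m : ℕ} {u : Polynomial K} :
    u ∈ Uset E d m ↔ u ∈ Polynomial.degreeLT K d ∧ ∀ i ≤ m, Polynomial.X ^ i * u ∈ E := Iff.rfl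

lemma Uset_le (E : Submodule K (Polynomial K)) (d m : ℕ) : Uset E d m ≤ Polynomial.degreeLT K d :=
  fun _ h => h.1

instance Uset_finite (E : Submodule K (Polynomial K)) (d m : ℕ) :
    FiniteDimensional K (Uset E d m) := Submodule.finiteDimensional_of_le (Uset_le E d m)

lemma shm_Uset_le (E : Submodule K (Polynomial K)) (d m : ℕ) : shm m (Uset E d m) ≤ E := by
  rw [shm_le_iff]
  intro u hu i hi
  exact hu.2 i hi

namespace GenLine

variable (L : GenLine K)

lemma psi_mem_degreeLT {p : MvPolynomial (Fin 4) K} {n : ℕ} (hp : p.IsHomogeneous n) :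
    L.psi p ∈ Polynomial.degreeLT K (n + 1) := by
  have h := MvPolynomial.aeval_natDegree_le (m := n) (n := 1) p hp.totalDegree_le L.lin (by
    intro i
    fin_cases i
    · simp [lin]
    · simp [lin]
    · simp only [lin]
      exact Polynomial.natDegree_linear_le
    · simp only [lin]
      exact Polynomial.natDegree_linear_le)
  rw [mul_one] at h
  rw [Polynomial.mem_degreeLT]
  refine lt_of_le_of_lt Polynomial.degree_le_natDegree ?_
  exact_mod_cast Nat.lt_succ_of_le h

lemma tay_mem_degreeLT {p : MvPolynomial (Fin 4) K} {n : ℕ} (hp : p.IsHomogeneous n) (i j : ℕ) :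
    L.tay i j p ∈ Polynomial.degreeLT K (n - (i + j) + 1) := by
  have hhom : ∀ (a : Fin 4) (i : ℕ) (m : ℕ) (q : MvPolynomial (Fin 4) K), q.IsHomogeneous m →
      ((MvPolynomial.pderiv a)^[i] q).IsHomogeneous (m - i) := by
    intro a i m q hq
    induction i with
    | zero => simpa using hq
    | succ i ih =>
      rw [Function.iterate_succ_apply', Nat.sub_succ]
      exact ih.pderiv
  rw [tay_apply]
  have h := L.psi_mem_degreeLT (hhom 2 i _ _ (hhom 3 j _ _ hp))
  have e : n - j - i = n - (i + j) := by omega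
  rwa [e] at h

/-- one step of the filtration. -/
lemma finrank_Wf_le {W : Submodule K (MvPolynomial (Fin 4) K)} [FiniteDimensional K W]
    (hW : L.Stable W) {t : ℕ} (hhom : W ≤ MvPolynomial.homogeneousSubmodule (Fin 4) K t) (m : ℕ) :
    finrank K (L.Wf W m) ≤ finrank K (L.Wf W (m + 1)) +
      (m + 1) * finrank K (Uset (W.map L.psi.toLinearMap) (t - m + 1) m) := by
  have hf : ∀ m, FiniteDimensional K (L.Wf W m) :=
    fun m => Submodule.finiteDimensional_of_le (L.Wf_le W m)
  have := hf m
  have := hf (m + 1)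
  set U := Uset (W.map L.psi.toLinearMap) (t - m + 1) m with hU
  let θ : L.Wf W m →ₗ[K] (Fin (m + 1) → U) := LinearMap.pi (fun i =>
    LinearMap.codRestrict U ((L.tay i.1 (m - i.1)).comp (L.Wf W m).subtype) (by
      intro p
      have hi : i.1 ≤ m := Nat.lt_succ_iff.1 i.2
      refine ⟨?_, ?_⟩
      · have h := L.tay_mem_degreeLT (hhom (L.Wf_le W m p.2)) i.1 (m - i.1)
        have e : i.1 + (m - i.1) = m := by omega
        rw [e] at h
        exact h
      · intro r hr
        exact L.lead hW m p.1 p.2 i.1 (m - i.1) (by omega) r hr))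
  have h1 := LinearMap.finrank_range_add_finrank_ker θ
  have h2 : finrank K (LinearMap.range θ) ≤ (m + 1) * finrank K U := by
    have := Submodule.finrank_le (LinearMap.range θ)
    rw [Module.finrank_pi_fintype] at this
    simpa using this
  have h3 : finrank K (LinearMap.ker θ) ≤ finrank K (L.Wf W (m + 1)) := by
    have hmap : (LinearMap.ker θ).map (L.Wf W m).subtype ≤ L.Wf W (m + 1) := by
      rintro _ ⟨p, hp, rfl⟩
      refine ⟨p.2.1, ?_⟩
      intro i j hij
      rcases Nat.lt_or_ge (i + j) m with h | h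
      · exact p.2.2 i j h
      · have hp' : θ p = 0 := hp
        have := congrFun hp' ⟨i, by omega⟩
        have h4 := congrArg Subtype.val this
        have e : m - i = j := by omega
        simp only [θ, LinearMap.pi_apply] at h4
        change L.tay i (m - i) p.1 = 0 at h4
        rw [e] at h4
        exact h4
    have := Submodule.finrank_mono hmap
    rwa [← (Submodule.equivMapOfInjective _ (Submodule.injective_subtype _) (LinearMap.ker θ)).finrank_eq] at this
  omega

lemma iterate_pderiv_eq_zero (a : Fin 4) : ∀ (m : ℕ) (q : MvPolynomial (Fin 4) K),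
    q.IsHomogeneous m → ∀ k, m < k → (MvPolynomial.pderiv a)^[k] q = 0 := by
  have hz : ∀ k, (MvPolynomial.pderiv a)^[k] (0 : MvPolynomial (Fin 4) K) = 0 := by
    intro k
    induction k with
    | zero => rfl
    | succ k ih => rw [Function.iterate_succ_apply', ih, map_zero]
  intro m
  induction m with
  | zero =>
    intro q hq k hk
    obtain ⟨k, rfl⟩ : ∃ k', k = k' + 1 := ⟨k - 1, by omega⟩
    rw [Function.iterate_succ_apply]
    have h0 : q = MvPolynomial.C (MvPolynomial.coeff 0 q) :=
      MvPolynomial.totalDegree_eq_zero_iff_eq_C.1 (Nat.le_zero.1 hq.totalDegree_le)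
    rw [h0, MvPolynomial.pderiv_C, hz]
  | succ m ih =>
    intro q hq k hk
    obtain ⟨k, rfl⟩ : ∃ k', k = k' + 1 := ⟨k - 1, by omega⟩
    rw [Function.iterate_succ_apply]
    exact ih _ hq.pderiv k (by omega)

/-- The basic upper bound for the dimension of a stable space. -/
theorem finrank_le [CharZero K] {W : Submodule K (MvPolynomial (Fin 4) K)} [FiniteDimensional K W]
    (hW : L.Stable W) {t : ℕ} (hhom : W ≤ MvPolynomial.homogeneousSubmodule (Fin 4) K t) :
    finrank K W ≤ ∑ m ∈ Finset.range (t + 1),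
      (m + 1) * finrank K (Uset (W.map L.psi.toLinearMap) (t - m + 1) m) := by
  have hstep : ∀ M, finrank K W ≤ finrank K (L.Wf W M) + ∑ m ∈ Finset.range M,
      (m + 1) * finrank K (Uset (W.map L.psi.toLinearMap) (t - m + 1) m) := by
    intro M
    induction M with
    | zero => rw [Wf_zero]; simp
    | succ M ih =>
      rw [Finset.sum_range_succ]
      have := L.finrank_Wf_le hW hhom M
      omega
  have hlast : L.Wf W (t + 1) = ⊥ := by
    rw [eq_bot_iff]
    intro p hp
    have hph : p.IsHomogeneous t := hhom hp.1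
    refine L.eq_zero_of_forall t p hph ?_
    intro i j
    rw [← tay_apply]
    rcases Nat.lt_or_ge (i + j) (t + 1) with h | h
    · exact hp.2 i j h
    · -- derivatives of order larger than the degree vanish
      rw [tay_apply]
      have hhom' : ∀ (i : ℕ), ((MvPolynomial.pderiv (3 : Fin 4))^[i] p).IsHomogeneous (t - i) := by
        intro i
        induction i with
        | zero => simpa using hph
        | succ i ih =>
          rw [Function.iterate_succ_apply', Nat.sub_succ]
          exact ih.pderiv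
      rcases Nat.lt_or_ge t j with hj | hj
      · rw [iterate_pderiv_eq_zero 3 t p hph j hj]
        have hz : ∀ k, (MvPolynomial.pderiv (2 : Fin 4))^[k] (0 : MvPolynomial (Fin 4) K) = 0 := by
          intro k
          induction k with
          | zero => rfl
          | succ k ih => rw [Function.iterate_succ_apply', ih, map_zero]
        rw [hz, map_zero]
      · rw [iterate_pderiv_eq_zero 2 (t - j) _ (hhom' j) i (by omega), map_zero]
  have := hstep (t + 1)
  rw [hlast, finrank_bot, zero_add] at this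
  exact this

end GenLine

end Pool.Agent.Lib.CEC001
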