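import Pool.Agent.Lib.CEC001.Bound

set_option autoImplicit false

open Module

namespace Pool.Agent.Lib.CEC001

variable {k : Type*} [Field k]

/-- the space of forms of degree `t` in four variables. -/
abbrev Rt (k : Type*) [Field k] (t : ℕ) : Submodule k (MvPolynomial (Fin 4) k) :=
  MvPolynomial.homogeneousSubmodule (Fin 4) k t

/-- the exponents of degree `t`. -/
noncomputable def mon (t : ℕ) : Finset (Fin 4 →₀ ℕ) := Finset.finsuppAntidiag Finset.univ t

lemma mem_mon {t : ℕ} {d : Fin 4 →₀ ℕ} : d ∈ mon t ↔ d.degree = t := by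
  unfold mon
  rw [Finset.mem_finsuppAntidiag, Finsupp.degree_eq_sum]
  simp

lemma card_mon (t : ℕ) : (mon t).card = (t + 3).choose 3 := by
  unfold mon
  rw [Finset.card_finsuppAntidiag_nat_eq_choose]
  simp only [Finset.card_univ, Fintype.card_fin]
  rw [show 4 + t - 1 = t + 3 by omega, Nat.choose_symm_add]

instance finite_Rt (t : ℕ) : FiniteDimensional k (Rt k t) :=
  Module.Finite.iff_fg.2 (MvPolynomial.homogeneousSubmodule_fg (Fin 4) k t)

lemma finrank_Rt (t : ℕ) : finrank k (Rt k t) = (t + 3).choose 3 := by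
  have h : ({d | d.degree = t} : Set (Fin 4 →₀ ℕ)) = ↑(mon t) := by
    ext d
    simp [mem_mon]
  rw [Rt, MvPolynomial.homogeneousSubmodule_eq_finsupp_supported,
    (AddMonoidAlgebra.supportedEquivFinsupp (R := k) (S := k) _).finrank_eq, h]
  rw [Module.finrank_finsupp_self, ← card_mon]
  simp

lemma monomial_mem_Rt {t : ℕ} {d : Fin 4 →₀ ℕ} (hd : d ∈ mon t) (c : k) :
    MvPolynomial.monomial d c ∈ Rt k t :=
  MvPolynomial.isHomogeneous_monomial c (mem_mon.1 hd)

lemma Rt_eq_span (t : ℕ) :
    Rt k t = Submodule.span k (Set.range (fun d : mon t => MvPolynomial.monomial (d : Fin 4 →₀ ℕ) (1 : k))) := by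
  apply le_antisymm
  · intro f hf
    rw [f.as_sum]
    refine Submodule.sum_mem _ (fun d hd => ?_)
    have hd' : d ∈ mon t := by
      rw [mem_mon]
      by_contra hne
      exact (MvPolynomial.mem_support_iff.1 hd) (MvPolynomial.IsHomogeneous.coeff_eq_zero hf hne)
    have : MvPolynomial.monomial d (MvPolynomial.coeff d f) =
        MvPolynomial.coeff d f • MvPolynomial.monomial d (1 : k) := by
      rw [MvPolynomial.smul_monomial, smul_eq_mul, mul_one]
    rw [this]
    exact Submodule.smul_mem _ _ (Submodule.subset_span ⟨⟨d, hd'⟩, rfl⟩)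
  · rw [Submodule.span_le]
    rintro _ ⟨d, rfl⟩
    exact monomial_mem_Rt d.2 1

/-- the annihilator in degree `t` (against degree `u`) of a functional. -/
def cat (Λ : MvPolynomial (Fin 4) k →ₗ[k] k) (t u : ℕ) : Submodule k (MvPolynomial (Fin 4) k) where
  carrier := {f | f ∈ Rt k t ∧ ∀ g ∈ Rt k u, Λ (f * g) = 0}
  add_mem' := by
    rintro p q ⟨hp, hp'⟩ ⟨hq, hq'⟩
    exact ⟨add_mem hp hq, fun g hg => by rw [add_mul, map_add, hp' g hg, hq' g hg, add_zero]⟩
  zero_mem' := ⟨zero_mem _, fun g _ => by rw [zero_mul, map_zero]⟩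
  smul_mem' := by
    rintro c p ⟨hp, hp'⟩
    exact ⟨Submodule.smul_mem _ c hp, fun g hg => by
      rw [smul_mul_assoc, map_smul, hp' g hg, smul_zero]⟩

lemma mem_cat {Λ : MvPolynomial (Fin 4) k →ₗ[k] k} {t u : ℕ} {f : MvPolynomial (Fin 4) k} :
    f ∈ cat Λ t u ↔ f ∈ Rt k t ∧ ∀ g ∈ Rt k u, Λ (f * g) = 0 := Iff.rfl

lemma cat_le (Λ : MvPolynomial (Fin 4) k →ₗ[k] k) (t u : ℕ) : cat Λ t u ≤ Rt k t := fun _ h => h.1

instance finite_cat (Λ : MvPolynomial (Fin 4) k →ₗ[k] k) (t u : ℕ) :
    FiniteDimensional k (cat Λ t u) := Submodule.finiteDimensional_of_le (cat_le Λ t u)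

/-- Gram matrix of the pairing. -/
noncomputable def gram (Λ : MvPolynomial (Fin 4) k →ₗ[k] k) (t u : ℕ) : Matrix (mon t) (mon u) k :=
  Matrix.of (fun a b => Λ (MvPolynomial.monomial (a.1 + b.1) 1))

/-- the Hilbert function of a functional, in degree `t` (dual degree `u`). -/
noncomputable def H (Λ : MvPolynomial (Fin 4) k →ₗ[k] k) (t u : ℕ) : ℕ := (gram Λ t u).rank

lemma H_symm (Λ : MvPolynomial (Fin 4) k →ₗ[k] k) (t u : ℕ) : H Λ t u = H Λ u t := by
  have h : gram Λ t u = (gram Λ u t).transpose := by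
    ext a b
    simp only [gram, Matrix.transpose_apply, Matrix.of_apply, add_comm]
  rw [H, H, h, Matrix.rank_transpose]

/-- the pairing map. -/
noncomputable def pair (Λ : MvPolynomial (Fin 4) k →ₗ[k] k) (t u : ℕ) :
    Rt k t →ₗ[k] (mon u → k) :=
  LinearMap.pi (fun b => (Λ.comp (LinearMap.mulRight k (MvPolynomial.monomial (b : Fin 4 →₀ ℕ) (1 : k)))).comp
    (Rt k t).subtype)

lemma pair_apply (Λ : MvPolynomial (Fin 4) k →ₗ[k] k) (t u : ℕ) (f : Rt k t) (b : mon u) :
    pair Λ t u f b = Λ (f * MvPolynomial.monomial (b : Fin 4 →₀ ℕ) (1 : k)) := rfl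

lemma ker_pair (Λ : MvPolynomial (Fin 4) k →ₗ[k] k) (t u : ℕ) :
    (LinearMap.ker (pair Λ t u)).map (Rt k t).subtype = cat Λ t u := by
  ext f
  constructor
  · rintro ⟨f, hf, rfl⟩
    refine ⟨f.2, ?_⟩
    intro g hg
    rw [Rt_eq_span] at hg
    induction hg using Submodule.span_induction with
    | mem g hg =>
      obtain ⟨b, rfl⟩ := hg
      have h : pair Λ t u f = 0 := hf
      have := congrFun h b
      rw [pair_apply] at this
      exact this
    | zero => rw [mul_zero, map_zero]
    | add g g' _ _ h h' => rw [mul_add, map_add, h, h', add_zero]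
    | smul c g _ h => rw [mul_smul_comm, map_smul, h, smul_zero]
  · rintro ⟨hf, h⟩
    refine ⟨⟨f, hf⟩, ?_, rfl⟩
    change pair Λ t u ⟨f, hf⟩ = 0
    ext b
    rw [pair_apply]
    exact h _ (monomial_mem_Rt b.2 1)

lemma range_pair (Λ : MvPolynomial (Fin 4) k →ₗ[k] k) (t u : ℕ) :
    finrank k (LinearMap.range (pair Λ t u)) = H Λ t u := by
  unfold H
  rw [Matrix.rank_eq_finrank_span_row]
  have key : LinearMap.range (pair Λ t u) = Submodule.span k (Set.range (gram Λ t u).row) := by
    apply le_antisymm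
    · rintro _ ⟨⟨f, hf⟩, rfl⟩
      have h1 : Rt k t ≤ Submodule.map (Rt k t).subtype
          (Submodule.comap (pair Λ t u) (Submodule.span k (Set.range (gram Λ t u).row))) := by
        conv_lhs => rw [Rt_eq_span]
        rw [Submodule.span_le]
        rintro _ ⟨d, rfl⟩
        refine ⟨⟨_, monomial_mem_Rt d.2 1⟩, ?_, rfl⟩
        apply Submodule.subset_span
        refine ⟨d, ?_⟩
        ext b
        rw [pair_apply]
        simp [gram, Matrix.row, MvPolynomial.monomial_mul]
      obtain ⟨f', hf', e⟩ := h1 hf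
      have e' : f' = ⟨f, hf⟩ := Subtype.ext e
      rw [← e']
      exact hf'
    · rw [Submodule.span_le]
      rintro _ ⟨d, rfl⟩
      refine ⟨⟨_, monomial_mem_Rt d.2 1⟩, ?_⟩
      ext b
      rw [pair_apply]
      simp [gram, Matrix.row, MvPolynomial.monomial_mul]
  rw [key]

lemma H_add_finrank_cat (Λ : MvPolynomial (Fin 4) k →ₗ[k] k) (t u : ℕ) :
    H Λ t u + finrank k (cat Λ t u) = (t + 3).choose 3 := by
  rw [← range_pair, ← ker_pair, ← finrank_Rt (k := k),
    ← LinearMap.finrank_range_add_finrank_ker (pair Λ t u)]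
  congr 1
  exact ((Submodule.equivMapOfInjective _ (Submodule.injective_subtype _)
    (LinearMap.ker (pair Λ t u))).finrank_eq).symm

/-! ### base change -/

lemma rank_map_algebraMap {m n : Type*} [Finite m] [Fintype n] (K : Type*) [Field K] [Algebra k K]
    (M : Matrix m n k) : (M.map (algebraMap k K)).rank = M.rank := by
  rw [Matrix.rank_eq_finrank_span_row, Matrix.rank_eq_finrank_span_row]
  obtain ⟨κ, a, ha, hsp, hli⟩ := exists_linearIndependent' k M.row
  have : Finite κ := Finite.of_injective a ha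
  have : Fintype κ := Fintype.ofFinite κ
  have hli' : LinearIndependent K (fun i => (M.map (algebraMap k K)).row (a i)) := by
    have := (linearIndependent_algebraMap_comp_iff (R := k) (S := K) (v := fun i => M.row (a i))).2 hli
    exact this
  have hsp' : Submodule.span K (Set.range (fun i => (M.map (algebraMap k K)).row (a i))) =
      Submodule.span K (Set.range (M.map (algebraMap k K)).row) := by
    apply le_antisymm
    · apply Submodule.span_mono
      rintro _ ⟨i, rfl⟩
      exact ⟨a i, rfl⟩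
    · rw [Submodule.span_le]
      rintro _ ⟨i, rfl⟩
      have h1 : M.row i ∈ Submodule.span k (Set.range (M.row ∘ a)) := by
        rw [hsp]
        exact Submodule.subset_span ⟨i, rfl⟩
      let Ψ : (n → k) →ₗ[k] (n → K) := (Algebra.linearMap k K).compLeft n
      have h2 : (Submodule.span k (Set.range (M.row ∘ a))) ≤ Submodule.comap Ψ
          ((Submodule.span K (Set.range (fun i => (M.map (algebraMap k K)).row (a i)))).restrictScalars k) := by
        rw [Submodule.span_le]
        rintro _ ⟨j, rfl⟩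
        exact Submodule.subset_span ⟨j, rfl⟩
      exact h2 h1
  rw [← hsp', ← hsp, finrank_span_eq_card hli', finrank_span_eq_card hli]

/-- base change of a functional. -/
noncomputable def up (K : Type*) [Field K] [Algebra k K] (Λ : MvPolynomial (Fin 4) k →ₗ[k] k) :
    MvPolynomial (Fin 4) K →ₗ[K] K :=
  (MvPolynomial.basisMonomials (Fin 4) K).constr K
    (fun d => algebraMap k K (Λ (MvPolynomial.monomial d 1)))

@[simp] lemma up_monomial_one (K : Type*) [Field K] [Algebra k K]
    (Λ : MvPolynomial (Fin 4) k →ₗ[k] k) (d : Fin 4 →₀ ℕ) :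
    up K Λ (MvPolynomial.monomial d 1) = algebraMap k K (Λ (MvPolynomial.monomial d 1)) := by
  have h : MvPolynomial.monomial d (1 : K) = MvPolynomial.basisMonomials (Fin 4) K d := by
    rw [MvPolynomial.coe_basisMonomials]
  unfold up
  rw [h, Module.Basis.constr_basis]

lemma H_up (K : Type*) [Field K] [Algebra k K] (Λ : MvPolynomial (Fin 4) k →ₗ[k] k) (t u : ℕ) :
    H (up K Λ) t u = H Λ t u := by
  unfold H
  rw [← rank_map_algebraMap K (gram Λ t u)]
  congr 1
  ext a b
  simp [gram]

end Pool.Agent.Lib.CEC001
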