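import Pool.Agent.Lib.CEC001.Binary

set_option autoImplicit false

open Module

namespace Pool.Agent.Lib.CEC001

variable {K : Type*} [Field K]

/-! ### Coefficientwise derivations -/

/-- apply a derivation of `K` to the coefficients of a univariate polynomial. -/
noncomputable def mapP (δ : Derivation ℤ K K) : Polynomial K →+ Polynomial K where
  toFun p := ∑ i ∈ p.support, Polynomial.monomial i (δ (p.coeff i))
  map_zero' := by simp
  map_add' p q := by
    have h : ∀ r : Polynomial K, ∀ n,
        (∑ i ∈ r.support, Polynomial.monomial i (δ (r.coeff i))).coeff n = δ (r.coeff n) := by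
      intro r n
      simp only [Polynomial.finsetSum_coeff, Polynomial.coeff_monomial, Finset.sum_ite_eq']
      split_ifs with hn
      · rfl
      · rw [Polynomial.notMem_support_iff.1 hn, map_zero]
    ext n
    rw [Polynomial.coeff_add, h, h, h, Polynomial.coeff_add, map_add]

@[simp] lemma coeff_mapP (δ : Derivation ℤ K K) (p : Polynomial K) (n : ℕ) :
    (mapP δ p).coeff n = δ (p.coeff n) := by
  change (∑ i ∈ p.support, Polynomial.monomial i (δ (p.coeff i))).coeff n = δ (p.coeff n)
  simp only [Polynomial.finsetSum_coeff, Polynomial.coeff_monomial, Finset.sum_ite_eq']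
  split_ifs with hn
  · rfl
  · rw [Polynomial.notMem_support_iff.1 hn, map_zero]

lemma mapP_mul (δ : Derivation ℤ K K) (p q : Polynomial K) :
    mapP δ (p * q) = p * mapP δ q + mapP δ p * q := by
  ext n
  simp only [coeff_mapP, Polynomial.coeff_mul, Polynomial.coeff_add, map_sum,
    Derivation.leibniz, smul_eq_mul, Finset.sum_add_distrib]
  congr 1
  exact Finset.sum_congr rfl (fun x _ => mul_comm _ _)

@[simp] lemma mapP_C (δ : Derivation ℤ K K) (c : K) :
    mapP δ (Polynomial.C c) = Polynomial.C (δ c) := by
  ext n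
  rw [coeff_mapP, Polynomial.coeff_C, Polynomial.coeff_C]
  split_ifs <;> simp

@[simp] lemma mapP_X (δ : Derivation ℤ K K) : mapP δ (Polynomial.X : Polynomial K) = 0 := by
  ext n
  rw [coeff_mapP, Polynomial.coeff_X]
  split_ifs <;> simp

@[simp] lemma mapP_one (δ : Derivation ℤ K K) : mapP δ (1 : Polynomial K) = 0 := by
  have := mapP_C δ (1 : K)
  simpa using this

/-- apply a derivation of `K` to the coefficients of a multivariate polynomial. -/
noncomputable def mapD {σ : Type*} (δ : Derivation ℤ K K) : MvPolynomial σ K →+ MvPolynomial σ K where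
  toFun p := ∑ i ∈ p.support, MvPolynomial.monomial i (δ (p.coeff i))
  map_zero' := by simp
  map_add' p q := by
    classical
    have h : ∀ r : MvPolynomial σ K, ∀ n,
        (∑ i ∈ r.support, MvPolynomial.monomial i (δ (r.coeff i))).coeff n = δ (r.coeff n) := by
      intro r n
      simp only [MvPolynomial.coeff_sum, MvPolynomial.coeff_monomial, Finset.sum_ite_eq']
      split_ifs with hn
      · rfl
      · rw [MvPolynomial.notMem_support_iff.1 hn, map_zero]
    ext n
    rw [MvPolynomial.coeff_add, h, h, h, MvPolynomial.coeff_add, map_add]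

@[simp] lemma coeff_mapD {σ : Type*} (δ : Derivation ℤ K K) (p : MvPolynomial σ K) (n : σ →₀ ℕ) :
    (mapD δ p).coeff n = δ (p.coeff n) := by
  classical
  change (∑ i ∈ p.support, MvPolynomial.monomial i (δ (p.coeff i))).coeff n = δ (p.coeff n)
  simp only [MvPolynomial.coeff_sum, MvPolynomial.coeff_monomial, Finset.sum_ite_eq']
  split_ifs with hn
  · rfl
  · rw [MvPolynomial.notMem_support_iff.1 hn, map_zero]

lemma mapD_mul {σ : Type*} (δ : Derivation ℤ K K) (p q : MvPolynomial σ K) :
    mapD δ (p * q) = p * mapD δ q + mapD δ p * q := by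
  classical
  ext n
  simp only [coeff_mapD, MvPolynomial.coeff_mul, MvPolynomial.coeff_add, map_sum,
    Derivation.leibniz, smul_eq_mul, Finset.sum_add_distrib]
  congr 1
  exact Finset.sum_congr rfl (fun x _ => mul_comm _ _)

@[simp] lemma mapD_C {σ : Type*} (δ : Derivation ℤ K K) (c : K) :
    mapD (σ := σ) δ (MvPolynomial.C c) = MvPolynomial.C (δ c) := by
  classical
  ext n
  rw [coeff_mapD, MvPolynomial.coeff_C, MvPolynomial.coeff_C]
  split_ifs <;> simp

@[simp] lemma mapD_X {σ : Type*} (δ : Derivation ℤ K K) (i : σ) :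
    mapD δ (MvPolynomial.X i : MvPolynomial σ K) = 0 := by
  classical
  ext n
  rw [coeff_mapD, MvPolynomial.coeff_X]
  split_ifs <;> simp

@[simp] lemma mapD_monomial_one {σ : Type*} (δ : Derivation ℤ K K) (e : σ →₀ ℕ) :
    mapD δ (MvPolynomial.monomial e (1 : K)) = 0 := by
  classical
  ext n
  rw [coeff_mapD, MvPolynomial.coeff_monomial]
  split_ifs <;> simp

lemma mapD_isHomogeneous {σ : Type*} (δ : Derivation ℤ K K) {p : MvPolynomial σ K} {n : ℕ}
    (h : p.IsHomogeneous n) : (mapD δ p).IsHomogeneous n := by
  intro d hd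
  apply h
  intro h0
  apply hd
  rw [coeff_mapD, h0, map_zero]

lemma pderiv_mapD {σ : Type*} (δ : Derivation ℤ K K) (i : σ) (p : MvPolynomial σ K) :
    MvPolynomial.pderiv i (mapD δ p) = mapD δ (MvPolynomial.pderiv i p) := by
  ext n
  rw [MvPolynomial.coeff_pderiv, coeff_mapD, coeff_mapD, MvPolynomial.coeff_pderiv,
    Derivation.leibniz]
  have h : δ ((n i : K) + 1) = 0 := by
    have h1 : ((n i : K) + 1) = ((n i + 1 : ℕ) : K) := by push_cast; ring
    rw [h1]
    exact δ.map_natCast _
  rw [h]
  simp only [smul_eq_mul, mul_zero, zero_add]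
  ring

/-! ### The generic line -/

/-- A field with four coordinates and the corresponding derivations. -/
structure GenLine (K : Type*) [Field K] where
  /-- the coordinates -/
  a : Fin 4 → K
  /-- the partial derivatives -/
  D : Fin 4 → Derivation ℤ K K
  D_a : ∀ i j, D i (a j) = if i = j then 1 else 0

namespace GenLine

variable (L : GenLine K)

/-- the linear polynomials defining the restriction. -/
noncomputable def lin (L : GenLine K) : Fin 4 → Polynomial K :=
  ![Polynomial.X, 1, Polynomial.C (L.a 0) * Polynomial.X + Polynomial.C (L.a 1),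
    Polynomial.C (L.a 2) * Polynomial.X + Polynomial.C (L.a 3)]

/-- restriction to the generic line `x = T, y = 1, z = a₀ T + a₁, w = a₂ T + a₃`. -/
noncomputable def psi : MvPolynomial (Fin 4) K →ₐ[K] Polynomial K := MvPolynomial.aeval L.lin

lemma psi_X (i : Fin 4) : L.psi (MvPolynomial.X i) = L.lin i := by
  simp [psi]

/-- chain rule for coefficientwise derivations. -/
lemma mapP_psi (δ : Derivation ℤ K K) (p : MvPolynomial (Fin 4) K) :
    mapP δ (L.psi p) = L.psi (mapD δ p) + ∑ i, L.psi (MvPolynomial.pderiv i p) * mapP δ (L.lin i) := by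
  induction p using MvPolynomial.induction_on with
  | C c =>
    simp only [psi, MvPolynomial.aeval_C, mapD_C, MvPolynomial.pderiv_C, map_zero, zero_mul,
      Finset.sum_const_zero, add_zero]
    exact mapP_C δ c
  | add p q hp hq =>
    simp only [map_add, hp, hq, add_mul, Finset.sum_add_distrib]
    ring
  | mul_X p i hp =>
    rw [map_mul, psi_X, mapP_mul, hp, mapD_mul, mapD_X, mul_zero, zero_add, map_mul, psi_X]
    have h : ∀ j, L.psi (MvPolynomial.pderiv j (p * MvPolynomial.X i)) * mapP δ (L.lin j) =
        L.lin i * (L.psi (MvPolynomial.pderiv j p) * mapP δ (L.lin j)) +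
          (if j = i then L.psi p * mapP δ (L.lin i) else 0) := by
      intro j
      rw [MvPolynomial.pderiv_mul, map_add, map_mul, map_mul, psi_X, MvPolynomial.pderiv_X]
      by_cases hj : j = i
      · subst hj
        simp
        ring
      · simp [hj, Pi.single_apply, Ne.symm hj]
        ring
    rw [Finset.sum_congr rfl (fun j _ => h j), Finset.sum_add_distrib, ← Finset.mul_sum]
    simp
    ring

end GenLine

end Pool.Agent.Lib.CEC001
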