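import Pool.Agent.Lib.CEC001.Cat

set_option autoImplicit false

open Module

namespace Pool.Agent.Lib.CEC001

variable {K : Type*} [Field K]

/-- multiples of `p` by forms of degree `t`. -/
noncomputable def mulR (p : MvPolynomial (Fin 4) K) (t : ℕ) : Submodule K (MvPolynomial (Fin 4) K) :=
  (Rt K t).map (LinearMap.mulLeft K p)

lemma mem_mulR {p q : MvPolynomial (Fin 4) K} {t : ℕ} :
    q ∈ mulR p t ↔ ∃ r ∈ Rt K t, p * r = q := Iff.rfl

instance finite_mulR (p : MvPolynomial (Fin 4) K) (t : ℕ) : FiniteDimensional K (mulR p t) := by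
  unfold mulR; infer_instance

lemma mulLeft_injective {p : MvPolynomial (Fin 4) K} (hp : p ≠ 0) :
    Function.Injective (LinearMap.mulLeft K p) := by
  intro a b h
  simpa [hp] using h

lemma finrank_map_mulLeft {p : MvPolynomial (Fin 4) K} (hp : p ≠ 0)
    (W : Submodule K (MvPolynomial (Fin 4) K)) :
    finrank K (W.map (LinearMap.mulLeft K p)) = finrank K W :=
  ((Submodule.equivMapOfInjective _ (mulLeft_injective hp) W).finrank_eq).symm

lemma finrank_mulR {p : MvPolynomial (Fin 4) K} (hp : p ≠ 0) (t : ℕ) :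
    finrank K (mulR p t) = (t + 3).choose 3 := by
  unfold mulR
  rw [finrank_map_mulLeft hp, finrank_Rt]

lemma Rt_succ_eq (t : ℕ) (W : Submodule K (MvPolynomial (Fin 4) K))
    (h : ∀ i : Fin 4, ∀ f ∈ Rt K t, MvPolynomial.X i * f ∈ W) : Rt K (t + 1) ≤ W := by
  rw [Rt_eq_span, Submodule.span_le]
  rintro _ ⟨⟨d, hd⟩, rfl⟩
  rw [mem_mon] at hd
  have hne : d ≠ 0 := by
    rintro rfl
    simp at hd
  obtain ⟨i, hi⟩ : ∃ i, d i ≠ 0 := by
    by_contra hcon
    push Not at hcon
    exact hne (Finsupp.ext hcon)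
  have hle : Finsupp.single i 1 ≤ d := by
    rw [Finsupp.single_le_iff]
    omega
  obtain ⟨e, rfl⟩ := exists_add_of_le hle
  have he : e.degree = t := by
    rw [map_add, Finsupp.degree_single] at hd
    omega
  have h1 := h i (MvPolynomial.monomial e 1) (MvPolynomial.isHomogeneous_monomial 1 he)
  have h2 : MvPolynomial.X i * MvPolynomial.monomial e (1 : K) =
      MvPolynomial.monomial (Finsupp.single i 1 + e) 1 := by
    rw [MvPolynomial.X, MvPolynomial.monomial_mul, one_mul]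
  rw [h2] at h1
  exact h1

lemma mul_mem_Rt {p q : MvPolynomial (Fin 4) K} {s t : ℕ} (hp : p ∈ Rt K s) (hq : q ∈ Rt K t) :
    p * q ∈ Rt K (s + t) := MvPolynomial.IsHomogeneous.mul hp hq

lemma X_mem_Rt (i : Fin 4) : (MvPolynomial.X i : MvPolynomial (Fin 4) K) ∈ Rt K 1 :=
  MvPolynomial.isHomogeneous_X K i

lemma X_mul_mem_Rt (i : Fin 4) {q : MvPolynomial (Fin 4) K} {t : ℕ} (hq : q ∈ Rt K t) :
    MvPolynomial.X i * q ∈ Rt K (t + 1) := by
  rw [add_comm]
  exact mul_mem_Rt (X_mem_Rt i) hq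

/-- multiplication by forms maps the annihilator into the annihilator. -/
lemma mul_mem_cat {Λ : MvPolynomial (Fin 4) K →ₗ[K] K} {t u s : ℕ} {f p : MvPolynomial (Fin 4) K}
    (hf : f ∈ cat Λ t (u + s)) (hp : p ∈ Rt K s) : p * f ∈ cat Λ (t + s) u := by
  refine ⟨?_, ?_⟩
  · rw [add_comm]; exact mul_mem_Rt hp hf.1
  · intro g hg
    have : p * f * g = f * (g * p) := by ring
    rw [this]
    exact hf.2 _ (mul_mem_Rt hg hp)

/-- the functional `g ↦ Λ (p g)`. -/
noncomputable def tw (Λ : MvPolynomial (Fin 4) K →ₗ[K] K) (p : MvPolynomial (Fin 4) K) :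
    MvPolynomial (Fin 4) K →ₗ[K] K := Λ.comp (LinearMap.mulLeft K p)

lemma tw_apply (Λ : MvPolynomial (Fin 4) K →ₗ[K] K) (p g : MvPolynomial (Fin 4) K) :
    tw Λ p g = Λ (p * g) := rfl

lemma mul_mem_cat_iff {Λ : MvPolynomial (Fin 4) K →ₗ[K] K} {t u s : ℕ} {f p : MvPolynomial (Fin 4) K}
    (hp : p ∈ Rt K s) (hf : f ∈ Rt K t) : p * f ∈ cat Λ (s + t) u ↔ f ∈ cat (tw Λ p) t u := by
  constructor
  · rintro ⟨_, h⟩
    exact ⟨hf, fun g hg => by rw [tw_apply, ← mul_assoc]; exact h g hg⟩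
  · rintro ⟨_, h⟩
    exact ⟨mul_mem_Rt hp hf, fun g hg => by rw [mul_assoc]; exact h g hg⟩

namespace GenLine

variable (L : GenLine K)

/-- first linear form vanishing on the line. -/
noncomputable def l1 : MvPolynomial (Fin 4) K :=
  MvPolynomial.X 2 - (MvPolynomial.C (L.a 0) * MvPolynomial.X 0 + MvPolynomial.C (L.a 1) * MvPolynomial.X 1)

/-- second linear form vanishing on the line. -/
noncomputable def l2 : MvPolynomial (Fin 4) K :=
  MvPolynomial.X 3 - (MvPolynomial.C (L.a 2) * MvPolynomial.X 0 + MvPolynomial.C (L.a 3) * MvPolynomial.X 1)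

lemma l1_mem : L.l1 ∈ Rt K 1 := by
  unfold l1
  exact sub_mem (X_mem_Rt 2) (add_mem (MvPolynomial.isHomogeneous_C_mul_X _ _)
    (MvPolynomial.isHomogeneous_C_mul_X _ _))

lemma l2_mem : L.l2 ∈ Rt K 1 := by
  unfold l2
  exact sub_mem (X_mem_Rt 3) (add_mem (MvPolynomial.isHomogeneous_C_mul_X _ _)
    (MvPolynomial.isHomogeneous_C_mul_X _ _))

lemma l1_ne_zero : L.l1 ≠ 0 := by
  intro h
  have h1 := congrArg (MvPolynomial.coeff (Finsupp.single 2 1)) h
  simp [l1, MvPolynomial.coeff_C_mul, MvPolynomial.coeff_X, Finsupp.single_left_inj] at h1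

lemma l2_ne_zero : L.l2 ≠ 0 := by
  intro h
  have h1 := congrArg (MvPolynomial.coeff (Finsupp.single 3 1)) h
  simp [l2, MvPolynomial.coeff_C_mul, MvPolynomial.coeff_X, Finsupp.single_left_inj] at h1

/-- homogenization in the first two variables. -/
noncomputable def hom (t : ℕ) : Polynomial K →ₗ[K] MvPolynomial (Fin 4) K where
  toFun p := ∑ a ∈ Finset.range (t + 1), MvPolynomial.C (p.coeff a) *
    (MvPolynomial.X 0 ^ a * MvPolynomial.X 1 ^ (t - a))
  map_add' p q := by
    rw [← Finset.sum_add_distrib]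
    refine Finset.sum_congr rfl (fun a _ => ?_)
    rw [Polynomial.coeff_add, map_add, add_mul]
  map_smul' c p := by
    rw [Finset.smul_sum]
    refine Finset.sum_congr rfl (fun a _ => ?_)
    rw [Polynomial.coeff_smul, smul_eq_mul, map_mul, RingHom.id_apply, MvPolynomial.smul_eq_C_mul,
      mul_assoc]

lemma hom_apply (t : ℕ) (p : Polynomial K) : hom t p = ∑ a ∈ Finset.range (t + 1),
    MvPolynomial.C (p.coeff a) * (MvPolynomial.X 0 ^ a * MvPolynomial.X 1 ^ (t - a)) := rfl

lemma hom_mem (t : ℕ) (p : Polynomial K) : hom t p ∈ Rt K t := by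
  rw [hom_apply]
  refine Submodule.sum_mem _ (fun a ha => ?_)
  have ha' : a ≤ t := Nat.lt_succ_iff.1 (Finset.mem_range.1 ha)
  have h1 : (MvPolynomial.X 0 ^ a * MvPolynomial.X 1 ^ (t - a) : MvPolynomial (Fin 4) K) ∈ Rt K t := by
    have := mul_mem_Rt (MvPolynomial.isHomogeneous_X_pow (R := K) (0 : Fin 4) a)
      (MvPolynomial.isHomogeneous_X_pow (R := K) (1 : Fin 4) (t - a))
    rwa [Nat.add_sub_cancel' ha'] at this
  rw [← MvPolynomial.smul_eq_C_mul]
  exact Submodule.smul_mem _ _ h1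

lemma hom_X_mul (t : ℕ) (p : Polynomial K) :
    hom (t + 1) (Polynomial.X * p) = MvPolynomial.X 0 * hom t p := by
  rw [hom_apply, hom_apply, Finset.sum_range_succ', Finset.mul_sum]
  simp only [Polynomial.coeff_X_mul, Polynomial.mul_coeff_zero, Polynomial.coeff_X_zero, zero_mul,
    map_zero, add_zero]
  refine Finset.sum_congr rfl (fun a _ => ?_)
  rw [show t + 1 - (a + 1) = t - a by omega]
  ring

lemma hom_succ (t : ℕ) {p : Polynomial K} (hp : p ∈ Polynomial.degreeLT K (t + 1)) :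
    hom (t + 1) p = MvPolynomial.X 1 * hom t p := by
  rw [hom_apply, hom_apply, Finset.sum_range_succ, Finset.mul_sum]
  have h0 : p.coeff (t + 1) = 0 := by
    apply Polynomial.coeff_eq_zero_of_degree_lt
    rw [Polynomial.mem_degreeLT] at hp
    exact hp
  rw [h0, map_zero, zero_mul, add_zero]
  refine Finset.sum_congr rfl (fun a ha => ?_)
  have ha' : a ≤ t := Nat.lt_succ_iff.1 (Finset.mem_range.1 ha)
  rw [show t + 1 - a = (t - a) + 1 by omega]
  ring

/-- forms of degree `t + 1` in the ideal of the line. -/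
noncomputable def J (t : ℕ) : Submodule K (MvPolynomial (Fin 4) K) := mulR L.l1 t ⊔ mulR L.l2 t

lemma X_mul_J (t : ℕ) (i : Fin 4) {f : MvPolynomial (Fin 4) K} (hf : f ∈ L.J t) :
    MvPolynomial.X i * f ∈ L.J (t + 1) := by
  obtain ⟨_, ⟨g, hg, rfl⟩, _, ⟨g', hg', rfl⟩, rfl⟩ := Submodule.mem_sup.1 hf
  rw [mul_add]
  refine Submodule.add_mem_sup ⟨MvPolynomial.X i * g, X_mul_mem_Rt i hg, ?_⟩
    ⟨MvPolynomial.X i * g', X_mul_mem_Rt i hg', ?_⟩
  · simp only [LinearMap.mulLeft_apply]; ring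
  · simp only [LinearMap.mulLeft_apply]; ring

lemma sub_hom_mem : ∀ (t : ℕ) (f : MvPolynomial (Fin 4) K), f ∈ Rt K (t + 1) →
    f - hom (t + 1) (L.psi f) ∈ L.J t := by
  have step : ∀ (t : ℕ) (g : MvPolynomial (Fin 4) K), g ∈ Rt K t → ∀ i,
      ∃ r ∈ L.J t, MvPolynomial.X i * g - hom (t + 1) (L.psi (MvPolynomial.X i * g)) =
        MvPolynomial.X i * (g - hom t (L.psi g)) + r := by
    intro t g hg i
    have hpsi := L.psi_mem_degreeLT (show g.IsHomogeneous t from hg)
    have h0 := hom_X_mul t (L.psi g)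
    have h1 := hom_succ t hpsi
    fin_cases i
    · refine ⟨0, zero_mem _, ?_⟩
      change MvPolynomial.X 0 * g - hom (t + 1) (L.psi (MvPolynomial.X 0 * g)) =
        MvPolynomial.X 0 * (g - hom t (L.psi g)) + 0
      rw [map_mul, psi_X]
      change MvPolynomial.X 0 * g - hom (t + 1) (Polynomial.X * L.psi g) = _
      rw [h0]
      ring
    · refine ⟨0, zero_mem _, ?_⟩
      change MvPolynomial.X 1 * g - hom (t + 1) (L.psi (MvPolynomial.X 1 * g)) =
        MvPolynomial.X 1 * (g - hom t (L.psi g)) + 0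
      rw [map_mul, psi_X]
      change MvPolynomial.X 1 * g - hom (t + 1) (1 * L.psi g) = _
      rw [one_mul, h1]
      ring
    · refine ⟨L.l1 * hom t (L.psi g), Submodule.mem_sup_left ⟨_, hom_mem t _, rfl⟩, ?_⟩
      change MvPolynomial.X 2 * g - hom (t + 1) (L.psi (MvPolynomial.X 2 * g)) =
        MvPolynomial.X 2 * (g - hom t (L.psi g)) + _
      rw [map_mul, psi_X]
      change MvPolynomial.X 2 * g - hom (t + 1)
        ((Polynomial.C (L.a 0) * Polynomial.X + Polynomial.C (L.a 1)) * L.psi g) = _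
      have e : (Polynomial.C (L.a 0) * Polynomial.X + Polynomial.C (L.a 1)) * L.psi g =
          L.a 0 • (Polynomial.X * L.psi g) + L.a 1 • L.psi g := by
        rw [Polynomial.smul_eq_C_mul, Polynomial.smul_eq_C_mul]; ring
      rw [e, map_add, map_smul, map_smul, h0, h1, MvPolynomial.smul_eq_C_mul,
        MvPolynomial.smul_eq_C_mul, l1]
      ring
    · refine ⟨L.l2 * hom t (L.psi g), Submodule.mem_sup_right ⟨_, hom_mem t _, rfl⟩, ?_⟩
      change MvPolynomial.X 3 * g - hom (t + 1) (L.psi (MvPolynomial.X 3 * g)) =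
        MvPolynomial.X 3 * (g - hom t (L.psi g)) + _
      rw [map_mul, psi_X]
      change MvPolynomial.X 3 * g - hom (t + 1)
        ((Polynomial.C (L.a 2) * Polynomial.X + Polynomial.C (L.a 3)) * L.psi g) = _
      have e : (Polynomial.C (L.a 2) * Polynomial.X + Polynomial.C (L.a 3)) * L.psi g =
          L.a 2 • (Polynomial.X * L.psi g) + L.a 3 • L.psi g := by
        rw [Polynomial.smul_eq_C_mul, Polynomial.smul_eq_C_mul]; ring
      rw [e, map_add, map_smul, map_smul, h0, h1, MvPolynomial.smul_eq_C_mul,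
        MvPolynomial.smul_eq_C_mul, l2]
      ring
  have red : ∀ (t : ℕ) (W : Submodule K (MvPolynomial (Fin 4) K)), (∀ i : Fin 4, ∀ g ∈ Rt K t,
      MvPolynomial.X i * g - hom (t + 1) (L.psi (MvPolynomial.X i * g)) ∈ W) →
      ∀ f ∈ Rt K (t + 1), f - hom (t + 1) (L.psi f) ∈ W := by
    intro t W h
    have := Rt_succ_eq (K := K) t (W.comap (LinearMap.id - (hom (t + 1)).comp L.psi.toLinearMap)) (by
      intro i g hg
      exact h i g hg)
    intro f hf
    exact this hf
  intro t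
  induction t with
  | zero =>
    apply red
    intro i g hg
    obtain ⟨r, hr, e⟩ := step 0 g hg i
    rw [e]
    have h0 : g - hom 0 (L.psi g) = 0 := by
      have hg' : g = MvPolynomial.C (MvPolynomial.coeff 0 g) :=
        MvPolynomial.totalDegree_eq_zero_iff_eq_C.1
          (Nat.le_zero.1 (MvPolynomial.IsHomogeneous.totalDegree_le hg))
      rw [hg', hom_apply]
      simp [psi]
    rw [h0, mul_zero, zero_add]
    exact hr
  | succ t ih =>
    apply red
    intro i g hg
    obtain ⟨r, hr, e⟩ := step (t + 1) g hg i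
    rw [e]
    exact add_mem (L.X_mul_J t i (ih g hg)) hr

lemma mem_J_of_psi_eq_zero {t : ℕ} {f : MvPolynomial (Fin 4) K} (hf : f ∈ Rt K (t + 1))
    (h : L.psi f = 0) : f ∈ L.J t := by
  have := L.sub_hom_mem t f hf
  rwa [h, map_zero, sub_zero] at this

end GenLine

end Pool.Agent.Lib.CEC001
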