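import Pool.Agent.Lib.CEC001.Cat
import Pool.Agent.Lib.CEC001.Line

set_option autoImplicit false

open Module

namespace Pool.Agent.Lib.CEC001

variable {k : Type*} [Field k]

/-- the Hilbert function of `R ⧸ I`. -/
noncomputable def hilb (I : Ideal (MvPolynomial (Fin 4) k)) (d : ℕ) : ℕ :=
  Module.finrank k (Submodule.map (Ideal.Quotient.mkₐ k I).toLinearMap
    (MvPolynomial.homogeneousSubmodule (Fin 4) k d))

/-- graded Gorenstein quotients, as in the frozen statement. -/
structure Gor (I : Ideal (MvPolynomial (Fin 4) k)) : Prop where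
  homog : ∀ p ∈ I, ∀ d : ℕ, MvPolynomial.homogeneousComponent d p ∈ I
  fin : FiniteDimensional k (MvPolynomial (Fin 4) k ⧸ I)
  socle : Module.finrank k (LinearMap.ker (LinearMap.pi (fun i : Fin 4 =>
        LinearMap.mulLeft k (Ideal.Quotient.mk I (MvPolynomial.X i))))) = 1

lemma hilb_add (I : Ideal (MvPolynomial (Fin 4) k)) (d : ℕ) :
    hilb I d + finrank k (Rt k d ⊓ I.restrictScalars k : Submodule k _) = (d + 3).choose 3 := by
  let φ := ((Ideal.Quotient.mkₐ k I).toLinearMap).domRestrict (Rt k d)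
  have h1 := LinearMap.finrank_range_add_finrank_ker φ
  rw [finrank_Rt] at h1
  have h2 : LinearMap.range φ = Submodule.map (Ideal.Quotient.mkₐ k I).toLinearMap (Rt k d) := by
    ext q
    constructor
    · rintro ⟨f, rfl⟩; exact ⟨f, f.2, rfl⟩
    · rintro ⟨f, hf, rfl⟩; exact ⟨⟨f, hf⟩, rfl⟩
  have h3 : (LinearMap.ker φ).map (Rt k d).subtype = (Rt k d ⊓ I.restrictScalars k : Submodule k _) := by
    ext q
    constructor
    · rintro ⟨f, hf, rfl⟩
      refine ⟨f.2, ?_⟩
      exact Ideal.Quotient.eq_zero_iff_mem.1 hf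
    · rintro ⟨hq, hq'⟩
      refine ⟨⟨q, hq⟩, ?_, rfl⟩
      exact Ideal.Quotient.eq_zero_iff_mem.2 hq'
  have h4 : finrank k (LinearMap.ker φ) = finrank k (Rt k d ⊓ I.restrictScalars k : Submodule k _) := by
    rw [← h3]
    exact (Submodule.equivMapOfInjective _ (Submodule.injective_subtype _) _).finrank_eq
  unfold hilb
  rw [h2] at h1
  rw [← h4]
  exact h1

namespace Gor

variable {I : Ideal (MvPolynomial (Fin 4) k)}

lemma succ_le {d : ℕ} (h : Rt k d ≤ I.restrictScalars k) : Rt k (d + 1) ≤ I.restrictScalars k :=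
  Rt_succ_eq d _ (fun _ _ hf => I.mul_mem_left _ (h hf))

lemma exists_le (h : Gor I) : ∃ d, Rt k d ≤ I.restrictScalars k := by
  by_contra hcon
  push Not at hcon
  have hch : ∀ d, ∃ f, f ∈ Rt k d ∧ f ∉ I := by
    intro d
    obtain ⟨f, hf, hf'⟩ := SetLike.not_le_iff_exists.1 (hcon d)
    exact ⟨f, hf, hf'⟩
  choose f hf hfI using hch
  have hli : LinearIndependent k (fun d : ℕ => Ideal.Quotient.mkₐ k I (f d)) := by
    rw [linearIndependent_iff']
    intro s g hg d hd
    have h1 : ∑ i ∈ s, g i • f i ∈ I := by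
      rw [← Ideal.Quotient.eq_zero_iff_mem]
      have : Ideal.Quotient.mk I (∑ i ∈ s, g i • f i) = ∑ i ∈ s, g i • Ideal.Quotient.mkₐ k I (f i) := by
        change Ideal.Quotient.mkₐ k I (∑ i ∈ s, g i • f i) = _
        rw [map_sum]
        simp only [map_smul]
      rw [this]
      exact hg
    have h2 := h.homog _ h1 d
    have h3 : MvPolynomial.homogeneousComponent d (∑ i ∈ s, g i • f i) = g d • f d := by
      rw [map_sum, Finset.sum_eq_single_of_mem d hd]
      · rw [map_smul, MvPolynomial.homogeneousComponent_eq_self (hf d)]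
      · intro i _ hi
        rw [map_smul, MvPolynomial.homogeneousComponent_of_mem (hf i), if_neg (Ne.symm hi), smul_zero]
    rw [h3] at h2
    by_contra hne
    apply hfI d
    have h4 : f d = MvPolynomial.C (g d)⁻¹ * (g d • f d) := by
      rw [MvPolynomial.smul_eq_C_mul, ← mul_assoc, ← map_mul, inv_mul_cancel₀ hne, map_one, one_mul]
    rw [h4]
    exact I.mul_mem_left _ h2
  have := h.fin
  exact Module.Finite.not_linearIndependent_of_infinite _ hli

/-- **Macaulay duality**: a graded Gorenstein quotient is given by a functional. -/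
theorem exists_functional (h : Gor I) : ∃ (j : ℕ) (Λ : MvPolynomial (Fin 4) k →ₗ[k] k),
    (∀ t u, t + u = j → hilb I t = H Λ t u) ∧ (∀ t, j < t → hilb I t = 0) ∧ hilb I j = 1 ∧
      hilb I 0 = 1 := by
  classical
  set N := Nat.find h.exists_le with hN
  have hN1 : Rt k N ≤ I.restrictScalars k := Nat.find_spec h.exists_le
  have hN2 : ∀ d < N, ¬ Rt k d ≤ I.restrictScalars k := fun d hd => Nat.find_min h.exists_le hd
  have hge : ∀ d, N ≤ d → Rt k d ≤ I.restrictScalars k := by
    intro d hd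
    induction d, hd using Nat.le_induction with
    | base => exact hN1
    | succ d _ ih => exact succ_le ih
  -- I ≠ ⊤
  have hI : (1 : MvPolynomial (Fin 4) k) ∉ I := by
    intro h1
    have hs := h.socle
    have : Subsingleton (MvPolynomial (Fin 4) k ⧸ I) := by
      rw [Ideal.Quotient.subsingleton_iff, Ideal.eq_top_iff_one]
      exact h1
    rw [Module.finrank_zero_of_subsingleton] at hs
    exact absurd hs (by norm_num)
  have hNpos : N ≠ 0 := by
    intro h0
    rw [h0] at hN1
    exact hI (hN1 (MvPolynomial.isHomogeneous_one (Fin 4) k))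
  obtain ⟨j, hj⟩ : ∃ j, N = j + 1 := ⟨N - 1, by omega⟩
  rw [hj] at hN1 hN2 hge
  obtain ⟨s, hs, hsI⟩ := SetLike.not_le_iff_exists.1 (hN2 j (by omega))
  have hsI' : s ∉ I := hsI
  set S := LinearMap.ker (LinearMap.pi (fun i : Fin 4 =>
        LinearMap.mulLeft k (Ideal.Quotient.mk I (MvPolynomial.X i)))) with hS
  have hmemS : ∀ f : MvPolynomial (Fin 4) k, (∀ i, MvPolynomial.X i * f ∈ I) →
      Ideal.Quotient.mk I f ∈ S := by
    intro f hf
    rw [hS, LinearMap.mem_ker]
    ext i
    simp only [LinearMap.pi_apply, LinearMap.mulLeft_apply, Pi.zero_apply, ← map_mul]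
    exact Ideal.Quotient.eq_zero_iff_mem.2 (hf i)
  have hsS : Ideal.Quotient.mk I s ∈ S := hmemS s (fun i => hN1 (X_mul_mem_Rt i hs))
  have hs0 : Ideal.Quotient.mk I s ≠ 0 := by
    rw [Ne, Ideal.Quotient.eq_zero_iff_mem]; exact hsI'
  obtain ⟨lam, hlam⟩ : ∃ lam : (MvPolynomial (Fin 4) k ⧸ I) →ₗ[k] k, lam (Ideal.Quotient.mk I s) ≠ 0 := by
    by_contra hcon
    push Not at hcon
    exact hs0 ((Module.forall_dual_apply_eq_zero_iff k _).1 hcon)
  let Λ : MvPolynomial (Fin 4) k →ₗ[k] k := lam.comp (Ideal.Quotient.mkₐ k I).toLinearMap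
  have hΛ : ∀ f, Λ f = lam (Ideal.Quotient.mk I f) := fun _ => rfl
  have hΛI : ∀ f ∈ I, Λ f = 0 := by
    intro f hf
    rw [hΛ, Ideal.Quotient.eq_zero_iff_mem.2 hf, map_zero]
  have hspan : ∀ x ∈ S, ∃ c : k, c • Ideal.Quotient.mk I s = x := by
    have h1 := (finrank_eq_one_iff_of_nonzero' (⟨Ideal.Quotient.mk I s, hsS⟩ : S) (by
      intro h0
      exact hs0 (congrArg Subtype.val h0))).1 h.socle
    intro x hx
    obtain ⟨c, hc⟩ := h1 ⟨x, hx⟩
    exact ⟨c, congrArg Subtype.val hc⟩
  -- nondegeneracy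
  have hnd : ∀ u t (f : MvPolynomial (Fin 4) k), t + u = j → f ∈ Rt k t → f ∉ I →
      ∃ g ∈ Rt k u, Λ (f * g) ≠ 0 := by
    intro u
    induction u with
    | zero =>
      intro t f ht hf hfI
      obtain rfl : t = j := by omega
      refine ⟨1, MvPolynomial.isHomogeneous_one (Fin 4) k, ?_⟩
      rw [mul_one, hΛ]
      obtain ⟨c, hc⟩ := hspan _ (hmemS f (fun i => hN1 (X_mul_mem_Rt i hf)))
      rw [← hc, map_smul, smul_eq_mul]
      refine mul_ne_zero ?_ hlam
      rintro rfl
      rw [zero_smul] at hc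
      exact hfI (Ideal.Quotient.eq_zero_iff_mem.1 hc.symm)
    | succ u ih =>
      intro t f ht hf hfI
      have hX : ∃ i, MvPolynomial.X i * f ∉ I := by
        by_contra hcon
        push Not at hcon
        obtain ⟨c, hc⟩ := hspan _ (hmemS f hcon)
        have h1 : c • s - f ∈ I := by
          rw [← Ideal.Quotient.eq_zero_iff_mem]
          have : Ideal.Quotient.mk I (c • s - f) = c • Ideal.Quotient.mk I s - Ideal.Quotient.mk I f := by
            change Ideal.Quotient.mkₐ k I (c • s - f) = _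
            rw [map_sub, map_smul]
            rfl
          rw [this, hc, sub_self]
        have h2 := h.homog _ h1 t
        rw [map_sub, map_smul, MvPolynomial.homogeneousComponent_eq_self hf,
          MvPolynomial.homogeneousComponent_of_mem hs, if_neg (by omega), smul_zero, zero_sub] at h2
        exact hfI (neg_mem_iff.1 h2)
      obtain ⟨i, hi⟩ := hX
      obtain ⟨g, hg, hg'⟩ := ih (t + 1) (MvPolynomial.X i * f) (by omega) (X_mul_mem_Rt i hf) hi
      refine ⟨MvPolynomial.X i * g, X_mul_mem_Rt i hg, ?_⟩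
      have e : f * (MvPolynomial.X i * g) = MvPolynomial.X i * f * g := by ring
      rw [e]
      exact hg'
  have hcat : ∀ t u, t + u = j → (Rt k t ⊓ I.restrictScalars k : Submodule k _) = cat Λ t u := by
    intro t u htu
    ext f
    constructor
    · rintro ⟨hf, hfI⟩
      exact ⟨hf, fun g _ => hΛI _ (I.mul_mem_right _ hfI)⟩
    · rintro ⟨hf, hf'⟩
      refine ⟨hf, ?_⟩
      by_contra hfI
      obtain ⟨g, hg, hg'⟩ := hnd u t f htu hf hfI
      exact hg' (hf' g hg)
  have hH : ∀ t u, t + u = j → hilb I t = H Λ t u := by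
    intro t u htu
    have h1 := hilb_add I t
    have h2 := H_add_finrank_cat Λ t u
    rw [hcat t u htu] at h1
    omega
  have h00 : hilb I 0 = 1 := by
    have h1 := hilb_add I 0
    have h2 : (Rt k 0 ⊓ I.restrictScalars k : Submodule k _) = ⊥ := by
      rw [eq_bot_iff]
      rintro f ⟨hf, hfI⟩
      by_contra hf0
      have hf1 : f = MvPolynomial.C (MvPolynomial.coeff 0 f) :=
        MvPolynomial.totalDegree_eq_zero_iff_eq_C.1
          (Nat.le_zero.1 (MvPolynomial.IsHomogeneous.totalDegree_le hf))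
      have hc : MvPolynomial.coeff 0 f ≠ 0 := by
        intro h0
        rw [h0, map_zero] at hf1
        exact hf0 (by rw [hf1]; exact Submodule.zero_mem _)
      apply hI
      have : (1 : MvPolynomial (Fin 4) k) = MvPolynomial.C (MvPolynomial.coeff 0 f)⁻¹ * f := by
        conv_rhs => rw [hf1]
        rw [MvPolynomial.coeff_C, if_pos rfl, ← map_mul, inv_mul_cancel₀ hc, map_one]
      rw [this]
      exact I.mul_mem_left _ hfI
    rw [h2, finrank_bot] at h1
    simpa using h1
  refine ⟨j, Λ, hH, ?_, ?_, h00⟩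
  · intro t ht
    have h1 := hilb_add I t
    rw [inf_eq_left.2 (hge t ht), finrank_Rt] at h1
    omega
  · rw [hH j 0 (by omega), H_symm, ← hH 0 j (by omega), h00]

end Gor

end Pool.Agent.Lib.CEC001
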