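import Pool.Agent.Lib.CEC001.Generic

set_option autoImplicit false

open Module

namespace Pool.Agent.Lib.CEC001

variable {K : Type*} [Field K]

lemma isHomogeneous_pderiv {σ : Type*} {p : MvPolynomial σ K} {n : ℕ} (h : p.IsHomogeneous (n + 1))
    (i : σ) : (MvPolynomial.pderiv i p).IsHomogeneous n := by
  classical
  intro d hd
  rw [MvPolynomial.coeff_pderiv] at hd
  have h1 : MvPolynomial.coeff (d + Finsupp.single i 1) p ≠ 0 := left_ne_zero_of_mul hd
  have h2 := h h1
  rw [map_add] at h2
  have h3 : Finsupp.weight (1 : σ → ℕ) (Finsupp.single i 1) = 1 := by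
    simp [Finsupp.weight_apply]
  rw [h3] at h2
  omega

lemma pderiv_comm' {σ : Type*} (i j : σ) (p : MvPolynomial σ K) :
    MvPolynomial.pderiv i (MvPolynomial.pderiv j p) =
      MvPolynomial.pderiv j (MvPolynomial.pderiv i p) := by
  classical
  by_cases hij : i = j
  · subst hij; rfl
  ext n
  simp only [MvPolynomial.coeff_pderiv]
  have e1 : (n + Finsupp.single i 1 : σ →₀ ℕ) j = n j := by simp [hij]
  have e2 : (n + Finsupp.single j 1 : σ →₀ ℕ) i = n i := by simp [Ne.symm hij]
  rw [e1, e2, add_right_comm]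
  ring

namespace GenLine

variable (L : GenLine K)

lemma mapP_D0 (p : MvPolynomial (Fin 4) K) : mapP (L.D 0) (L.psi p) =
    L.psi (mapD (L.D 0) p) + Polynomial.X * L.psi (MvPolynomial.pderiv 2 p) := by
  rw [mapP_psi, Fin.sum_univ_four]
  simp [lin, mapP_mul, L.D_a]
  ring

lemma mapP_D1 (p : MvPolynomial (Fin 4) K) : mapP (L.D 1) (L.psi p) =
    L.psi (mapD (L.D 1) p) + L.psi (MvPolynomial.pderiv 2 p) := by
  rw [mapP_psi, Fin.sum_univ_four]
  simp [lin, mapP_mul, L.D_a]

lemma mapP_D2 (p : MvPolynomial (Fin 4) K) : mapP (L.D 2) (L.psi p) =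
    L.psi (mapD (L.D 2) p) + Polynomial.X * L.psi (MvPolynomial.pderiv 3 p) := by
  rw [mapP_psi, Fin.sum_univ_four]
  simp [lin, mapP_mul, L.D_a]
  ring

lemma mapP_D3 (p : MvPolynomial (Fin 4) K) : mapP (L.D 3) (L.psi p) =
    L.psi (mapD (L.D 3) p) + L.psi (MvPolynomial.pderiv 3 p) := by
  rw [mapP_psi, Fin.sum_univ_four]
  simp [lin, mapP_mul, L.D_a]

lemma derivative_psi (p : MvPolynomial (Fin 4) K) : Polynomial.derivative (L.psi p) =
    L.psi (MvPolynomial.pderiv 0 p) + Polynomial.C (L.a 0) * L.psi (MvPolynomial.pderiv 2 p)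
      + Polynomial.C (L.a 2) * L.psi (MvPolynomial.pderiv 3 p) := by
  have h : ∀ p : MvPolynomial (Fin 4) K, Polynomial.derivative (L.psi p) =
      ∑ i, L.psi (MvPolynomial.pderiv i p) * Polynomial.derivative (L.lin i) := by
    intro p
    induction p using MvPolynomial.induction_on with
    | C c => simp [psi]
    | add p q hp hq =>
      simp only [map_add, hp, hq, add_mul, Finset.sum_add_distrib]
    | mul_X p i hp =>
      rw [map_mul, psi_X, Polynomial.derivative_mul, hp]
      have h : ∀ j, L.psi (MvPolynomial.pderiv j (p * MvPolynomial.X i)) *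
          Polynomial.derivative (L.lin j) =
          L.lin i * (L.psi (MvPolynomial.pderiv j p) * Polynomial.derivative (L.lin j)) +
            (if j = i then L.psi p * Polynomial.derivative (L.lin i) else 0) := by
        intro j
        rw [MvPolynomial.pderiv_mul, map_add, map_mul, map_mul, psi_X, MvPolynomial.pderiv_X]
        by_cases hj : j = i
        · subst hj
          simp
          ring
        · simp [hj, Ne.symm hj]
          ring
      rw [Finset.sum_congr rfl (fun j _ => h j), Finset.sum_add_distrib, ← Finset.mul_sum]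
      simp
      ring
  rw [h, Fin.sum_univ_four]
  simp [lin]
  ring

lemma euler_psi {n : ℕ} {p : MvPolynomial (Fin 4) K} (hp : p.IsHomogeneous n) :
    (n : Polynomial K) * L.psi p = Polynomial.X * L.psi (MvPolynomial.pderiv 0 p)
      + L.psi (MvPolynomial.pderiv 1 p)
      + (Polynomial.C (L.a 0) * Polynomial.X + Polynomial.C (L.a 1)) * L.psi (MvPolynomial.pderiv 2 p)
      + (Polynomial.C (L.a 2) * Polynomial.X + Polynomial.C (L.a 3)) * L.psi (MvPolynomial.pderiv 3 p) := by
  have h := congrArg L.psi hp.sum_X_mul_pderiv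
  rw [Fin.sum_univ_four, nsmul_eq_mul] at h
  simp only [map_add, map_mul, psi_X, map_natCast] at h
  rw [← h]
  simp [lin]

/-- If `p` is homogeneous and all `z, w`-derivatives vanish on the generic line, then `p = 0`. -/
lemma eq_zero_of_forall [CharZero K] : ∀ (n : ℕ) (p : MvPolynomial (Fin 4) K), p.IsHomogeneous n →
    (∀ i j, L.psi ((MvPolynomial.pderiv 2)^[i] ((MvPolynomial.pderiv 3)^[j] p)) = 0) → p = 0 := by
  intro n
  induction n with
  | zero =>
    intro p hp h
    have h0 := h 0 0
    simp only [Function.iterate_zero, id] at h0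
    rw [← MvPolynomial.totalDegree_zero_iff_isHomogeneous, MvPolynomial.totalDegree_eq_zero_iff_eq_C] at hp
    rw [hp] at h0 ⊢
    simp only [psi, MvPolynomial.aeval_C] at h0
    have h1 : p.coeff 0 = 0 := by
      have := congrArg (fun q => Polynomial.coeff q 0) h0
      simpa using this
    rw [h1, map_zero]
  | succ n ih =>
    intro p hp h
    have hcomm : ∀ (a b : Fin 4) (i : ℕ) (q : MvPolynomial (Fin 4) K),
        (MvPolynomial.pderiv a)^[i] (MvPolynomial.pderiv b q) =
          MvPolynomial.pderiv b ((MvPolynomial.pderiv a)^[i] q) := by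
      intro a b i q
      have hc : Function.Commute (fun q : MvPolynomial (Fin 4) K => MvPolynomial.pderiv a q)
          (fun q => MvPolynomial.pderiv b q) := fun q => pderiv_comm' a b q
      exact (hc.iterate_left i) q
    have hhom : ∀ (a : Fin 4) (i : ℕ) (m : ℕ) (q : MvPolynomial (Fin 4) K), q.IsHomogeneous m →
        ((MvPolynomial.pderiv a)^[i] q).IsHomogeneous (m - i) := by
      intro a i m q hq
      induction i with
      | zero => simpa using hq
      | succ i ih =>
        rw [Function.iterate_succ_apply', Nat.sub_succ]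
        exact ih.pderiv
    have e2 : ∀ i j, L.psi (MvPolynomial.pderiv 2 ((MvPolynomial.pderiv 2)^[i]
        ((MvPolynomial.pderiv 3)^[j] p))) = 0 := by
      intro i j
      rw [← Function.iterate_succ_apply' (MvPolynomial.pderiv 2)]
      exact h (i + 1) j
    have e3 : ∀ i j, L.psi (MvPolynomial.pderiv 3 ((MvPolynomial.pderiv 2)^[i]
        ((MvPolynomial.pderiv 3)^[j] p))) = 0 := by
      intro i j
      rw [← hcomm, ← Function.iterate_succ_apply' (MvPolynomial.pderiv 3)]
      exact h i (j + 1)
    have e0 : ∀ i j, L.psi (MvPolynomial.pderiv 0 ((MvPolynomial.pderiv 2)^[i]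
        ((MvPolynomial.pderiv 3)^[j] p))) = 0 := by
      intro i j
      have e := L.derivative_psi ((MvPolynomial.pderiv 2)^[i] ((MvPolynomial.pderiv 3)^[j] p))
      rw [h i j, e2, e3] at e
      simpa using e.symm
    have e1 : ∀ i j, L.psi (MvPolynomial.pderiv 1 ((MvPolynomial.pderiv 2)^[i]
        ((MvPolynomial.pderiv 3)^[j] p))) = 0 := by
      intro i j
      have e := L.euler_psi (hhom 2 i _ _ (hhom 3 j _ _ hp))
      rw [h i j, e2, e3, e0] at e
      simpa using e.symm
    have key : ∀ a : Fin 4, MvPolynomial.pderiv a p = 0 := by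
      intro a
      refine ih _ (isHomogeneous_pderiv hp a) ?_
      intro i j
      rw [hcomm, hcomm]
      fin_cases a
      · exact e0 i j
      · exact e1 i j
      · exact e2 i j
      · exact e3 i j
    have hE := hp.sum_X_mul_pderiv
    rw [Finset.sum_eq_zero (fun a _ => by rw [key a, mul_zero])] at hE
    have h2 : (n + 1 : ℕ) • p = 0 := hE.symm
    rcases smul_eq_zero.1 h2 with h3 | h3
    · omega
    · exact h3

end GenLine

end Pool.Agent.Lib.CEC001
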